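import Pool.Agent.Helper76.QC.D3

set_option autoImplicit false

open MeasureTheory ProbabilityTheory Filter Finset Topology

namespace Pool.Agent.Helper76.QC

open Pool.Agent.Helper97.CP Pool.Agent.Helper97.QC

theorem nsq_neg_sub (x y : Z2) : nsq (x - y) = nsq (y - x) := by
  unfold nsq
  apply Finset.sum_congr rfl
  intro i _
  simp only [Pi.sub_apply]
  push_cast
  ring

theorem Qn_rho_le {C α B : ℝ} (hα : 0 < α) (hα2 : α ≤ 1 / 2) (hB : 0 < B)
    (hC : ∀ (α B : ℝ) (m : ℕ) (x v : Z2), 0 < α → α ≤ 1 / 2 → 0 < B →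
      A m (fun y => (B / (1 + nsq (y - v))) ^ α) x ≤ C * (B / (1 + m)) ^ α) (n : ℕ) (z : Z2) :
    Qn n (fun y => (B / (1 + nsq y)) ^ α) z ≤ C * (B / (1 + n)) ^ α := by
  have h := A_A_diff n (fun y => (B / (1 + nsq y)) ^ α) z 0
  rw [sub_zero] at h
  rw [← h]
  refine (A_mono (g := fun _ => C * (B / (1 + n)) ^ α) ?_).trans (le_of_eq (A_const _ _ _))
  intro y
  have := hC α B n 0 y hα hα2 hB
  simpa only [nsq_neg_sub] using this

theorem sum_inv_sqrt (t : ℕ) : ∑ n ∈ Icc 1 t, 1 / √(n : ℝ) ≤ 2 * √(t : ℝ) := by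
  induction t with
  | zero => simp
  | succ t ih =>
    rw [Finset.sum_Icc_succ_top (by omega)]
    have h1 : 1 / √((t + 1 : ℕ) : ℝ) ≤ 2 * √((t + 1 : ℕ) : ℝ) - 2 * √(t : ℝ) := by
      have hp : 0 < √((t + 1 : ℕ) : ℝ) := Real.sqrt_pos.2 (by positivity)
      rw [div_le_iff₀ hp]
      have e1 : √((t + 1 : ℕ) : ℝ) * √((t + 1 : ℕ) : ℝ) = (t : ℝ) + 1 := by
        rw [Real.mul_self_sqrt (by positivity)]; push_cast; ring
      have e2 : √(t : ℝ) * √(t : ℝ) = t := Real.mul_self_sqrt (by positivity)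
      nlinarith [sq_nonneg (√((t + 1 : ℕ) : ℝ) - √(t : ℝ))]
    linarith

theorem rpow_quarter_le {x : ℝ} (hx : 1 ≤ x) : x ^ (1 / 4 : ℝ) ≤ √x := by
  rw [Real.sqrt_eq_rpow]
  exact Real.rpow_le_rpow_of_exponent_le hx (by norm_num)

theorem Tn_rho_le : ∃ C : ℝ, 0 < C ∧ ∀ (s B : ℝ) (t : ℕ) (z : Z2), 0 < s → s * R t < 1 →
    s / (1 - s * R t) ≤ 1 → 0 < B → 1 ≤ t →
    Tn s t (fun y => (B / (1 + nsq y)) ^ (1 / 4 : ℝ)) z ≤
      C * (B / (1 + t)) ^ (1 / 4 : ℝ) * (1 + s / (1 - s * R t) * Qs t z) := by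
  obtain ⟨C1, hC1, hA⟩ := A_rho_le
  obtain ⟨C2, hC2, hk⟩ := kk_le
  refine ⟨C1 * (3 + 8 * C2), by positivity, ?_⟩
  intro s B t z hs hR hδ hB ht
  have hp : 0 < 1 - s * R t := by linarith
  set δ := s / (1 - s * R t) with hd
  have hδ0 : 0 < δ := by positivity
  have hQ0 := Qs_nonneg t z
  have hq := Qn_rho_le (α := 1 / 4) (B := B) (by norm_num) (by norm_num) hB hA
  set P := (B / (1 + (t : ℝ))) ^ (1 / 4 : ℝ) with hP
  have htR : (1 : ℝ) ≤ t := by exact_mod_cast ht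
  have hP0 : 0 < P := by positivity
  rw [Tn_eq]
  -- each factor
  have hfac : ∀ m ∈ Icc 1 t, Qn (t - m) (fun y => (B / (1 + nsq y)) ^ (1 / 4 : ℝ)) 0 ≤
      C1 * (P * (√(1 + t) * (1 / √(((t + 1 - m : ℕ) : ℝ))))) := by
    intro m hm
    rw [Finset.mem_Icc] at hm
    refine (hq (t - m) 0).trans ?_
    apply mul_le_mul_of_nonneg_left _ hC1.le
    have e1 : (1 : ℝ) + ((t - m : ℕ) : ℝ) = ((t + 1 - m : ℕ) : ℝ) := by
      rw [Nat.sub_add_comm hm.2]; push_cast; ring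
    have hpos : (1 : ℝ) ≤ ((t + 1 - m : ℕ) : ℝ) := by
      exact_mod_cast (by omega : 1 ≤ t + 1 - m)
    have hle : ((t + 1 - m : ℕ) : ℝ) ≤ 1 + t := by
      have : t + 1 - m ≤ 1 + t := by omega
      exact_mod_cast this
    rw [e1]
    have e2 : B / ((t + 1 - m : ℕ) : ℝ) = B / (1 + t) * ((1 + t) / ((t + 1 - m : ℕ) : ℝ)) := by
      field_simp
    rw [e2, Real.mul_rpow (by positivity) (by positivity)]
    apply mul_le_mul_of_nonneg_left _ hP0.le
    refine (rpow_quarter_le ?_).trans (le_of_eq ?_)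
    · rw [le_div_iff₀ (by linarith)]; linarith
    · rw [Real.sqrt_div (by positivity)]; ring
  have hterm : ∀ m ∈ Icc 1 t, kk s m z * Qn (t - m) (fun y => (B / (1 + nsq y)) ^ (1 / 4 : ℝ)) 0 ≤
      C1 * P * (2 * kk s m z) + C1 * P * (2 * C2 * δ * (1 + δ * Qs t z) / t) *
        (√(1 + t) * (1 / √(((t + 1 - m : ℕ) : ℝ)))) := by
    intro m hm
    have hf := hfac m hm
    rw [Finset.mem_Icc] at hm
    have k0 := kk_nonneg hs.le m z
    have hpos : (1 : ℝ) ≤ ((t + 1 - m : ℕ) : ℝ) := by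
      exact_mod_cast (by omega : 1 ≤ t + 1 - m)
    refine (mul_le_mul_of_nonneg_left hf k0).trans ?_
    rcases le_or_gt (2 * m) t with h | h
    · -- early
      have e : √(1 + t) * (1 / √(((t + 1 - m : ℕ) : ℝ))) ≤ 2 := by
        rw [mul_one_div, div_le_iff₀ (Real.sqrt_pos.2 (by linarith))]
        have : √(1 + (t : ℝ)) ≤ √(4 * ((t + 1 - m : ℕ) : ℝ)) := by
          apply Real.sqrt_le_sqrt
          have : 1 + t ≤ 4 * (t + 1 - m) := by omega
          exact_mod_cast this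
        refine this.trans (le_of_eq ?_)
        rw [Real.sqrt_mul (by norm_num), show (4 : ℝ) = 2 ^ 2 by norm_num, Real.sqrt_sq (by norm_num)]
      have e2 : kk s m z * (C1 * (P * (√(1 + t) * (1 / √(((t + 1 - m : ℕ) : ℝ)))))) ≤
          kk s m z * (C1 * (P * 2)) := by
        apply mul_le_mul_of_nonneg_left _ k0
        apply mul_le_mul_of_nonneg_left _ hC1.le
        exact mul_le_mul_of_nonneg_left e hP0.le
      have e3 : 0 ≤ C1 * P * (2 * C2 * δ * (1 + δ * Qs t z) / t) *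
        (√(1 + t) * (1 / √(((t + 1 - m : ℕ) : ℝ)))) := by positivity
      linarith
    · -- late
      have e := hk s t m z hs hR hm.1 hm.2
      have hmt : (t : ℝ) ≤ 2 * m := by exact_mod_cast h.le
      have e1 : kk s m z ≤ 2 * C2 * δ * (1 + δ * Qs t z) / t := by
        rw [le_div_iff₀ (by linarith)]
        nlinarith
      have e2 : kk s m z * (C1 * (P * (√(1 + t) * (1 / √(((t + 1 - m : ℕ) : ℝ)))))) ≤
          2 * C2 * δ * (1 + δ * Qs t z) / t *
            (C1 * (P * (√(1 + t) * (1 / √(((t + 1 - m : ℕ) : ℝ)))))) :=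
        mul_le_mul_of_nonneg_right e1 (by positivity)
      have e3 : 0 ≤ C1 * P * (2 * kk s m z) := by positivity
      linarith
  have hsum := Finset.sum_le_sum hterm
  rw [Finset.sum_add_distrib, ← Finset.mul_sum, ← Finset.mul_sum, ← Kf_sum, ← Finset.mul_sum,
    ← Finset.mul_sum, sum_reflect (fun j => 1 / √((j : ℕ) : ℝ))] at hsum
  have hK := Kf_le hs.le hR z
  have hs1 := sum_inv_sqrt t
  have hst : √(1 + (t : ℝ)) * ∑ n ∈ Icc 1 t, 1 / √(n : ℝ) ≤ 4 * t := by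
    have a : √(1 + (t : ℝ)) * (2 * √(t : ℝ)) ≤ 4 * t := by
      have : √(1 + (t : ℝ)) ≤ 2 * √(t : ℝ) := by
        have : √(1 + (t : ℝ)) ≤ √(4 * (t : ℝ)) := Real.sqrt_le_sqrt (by linarith)
        refine this.trans (le_of_eq ?_)
        rw [Real.sqrt_mul (by norm_num), show (4 : ℝ) = 2 ^ 2 by norm_num, Real.sqrt_sq (by norm_num)]
      have h0 := Real.sqrt_nonneg (t : ℝ)
      have h1 := Real.mul_self_sqrt (by linarith : (0 : ℝ) ≤ t)
      nlinarith
    exact (mul_le_mul_of_nonneg_left hs1 (Real.sqrt_nonneg _)).trans a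
  have hA1 : C1 * P * (2 * Kf s t z) ≤ C1 * P * (2 * (δ * Qs t z)) :=
    mul_le_mul_of_nonneg_left (by linarith) (by positivity)
  have hA2 : C1 * P * (2 * C2 * δ * (1 + δ * Qs t z) / t) * (√(1 + (t : ℝ)) * ∑ n ∈ Icc 1 t, 1 / √(n : ℝ)) ≤
      C1 * P * (2 * C2 * δ * (1 + δ * Qs t z) / t) * (4 * t) :=
    mul_le_mul_of_nonneg_left hst (by positivity)
  have hA3 : C1 * P * (2 * C2 * δ * (1 + δ * Qs t z) / t) * (4 * t) =
      C1 * P * (8 * C2 * δ * (1 + δ * Qs t z)) := by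
    field_simp
    ring
  have hA4 : C1 * P * (8 * C2 * δ * (1 + δ * Qs t z)) ≤ C1 * P * (8 * C2 * 1 * (1 + δ * Qs t z)) := by
    apply mul_le_mul_of_nonneg_left _ (by positivity)
    apply mul_le_mul_of_nonneg_right _ (by positivity)
    exact mul_le_mul_of_nonneg_left hδ (by positivity)
  have hQt := hq t z
  have hfin : C1 * P + C1 * P * (2 * (δ * Qs t z)) + C1 * P * (8 * C2 * 1 * (1 + δ * Qs t z)) ≤
      C1 * (3 + 8 * C2) * P * (1 + δ * Qs t z) := by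
    have : 0 ≤ C1 * P * (2 + δ * Qs t z) := by positivity
    nlinarith
  rw [hA3] at hA2
  linarith

end Pool.Agent.Helper76.QC
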