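import Pool.Agent.Helper76.QC.D4

/-! QC part D: all statements are in `Pool.Agent.Helper76.QC` (files D1, D2, D3, D4). -/
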