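import Pool.Agent.Helper97.QC.Base

set_option autoImplicit false

open MeasureTheory ProbabilityTheory Filter Finset Topology

namespace Pool.Agent.Helper76.QC

open Pool.Agent.Helper97.CP Pool.Agent.Helper97.QC

theorem T2_eq (s : ℝ) (ψ : Z2 → ℝ) (z : Z2) : T2 s ψ z = Q ψ z + s * ψ 0 * q 1 z := by
  unfold T2 q
  have h : (fun y => (1 + s * i0 y) * ψ y) = fun y => ψ y + s * ψ 0 * i0 y := by
    funext y
    unfold i0
    split_ifs with hy
    · subst hy; ring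
    · ring
  rw [h, Q_add, Q_mul_left]
  rfl

theorem Tn_zero (s : ℝ) (ψ : Z2 → ℝ) : Tn s 0 ψ = ψ := rfl

theorem Tn_succ (s : ℝ) (t : ℕ) (ψ : Z2 → ℝ) : Tn s (t + 1) ψ = T2 s (Tn s t ψ) := rfl

theorem Tn_succ' (s : ℝ) (t : ℕ) (ψ : Z2 → ℝ) : Tn s (t + 1) ψ = Tn s t (T2 s ψ) := by
  induction t with
  | zero => rfl
  | succ t ih => rw [Tn_succ, ih, Tn_succ]

theorem T2_mono {s : ℝ} (hs : 0 ≤ s) {f g : Z2 → ℝ} (h : ∀ y, f y ≤ g y) (z : Z2) :
    T2 s f z ≤ T2 s g z := by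
  unfold T2
  apply Q_mono
  intro y
  apply mul_le_mul_of_nonneg_left (h y)
  unfold i0
  split_ifs
  · linarith
  · linarith

theorem T2_add (s : ℝ) (f g : Z2 → ℝ) (z : Z2) :
    T2 s (fun y => f y + g y) z = T2 s f z + T2 s g z := by
  rw [T2_eq, T2_eq, T2_eq, Q_add]
  ring

theorem T2_mul_left (s c : ℝ) (f : Z2 → ℝ) (z : Z2) :
    T2 s (fun y => c * f y) z = c * T2 s f z := by
  rw [T2_eq, T2_eq, Q_mul_left]
  ring

theorem Tn_mono {s : ℝ} (hs : 0 ≤ s) {t : ℕ} {f g : Z2 → ℝ} (h : ∀ y, f y ≤ g y) (z : Z2) :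
    Tn s t f z ≤ Tn s t g z := by
  induction t generalizing z with
  | zero => exact h z
  | succ t ih => exact T2_mono hs ih z

theorem Tn_add (s : ℝ) (t : ℕ) (f g : Z2 → ℝ) (z : Z2) :
    Tn s t (fun y => f y + g y) z = Tn s t f z + Tn s t g z := by
  induction t generalizing z with
  | zero => rfl
  | succ t ih =>
    rw [Tn_succ, Tn_succ, Tn_succ, ← T2_add]
    congr 1
    funext y
    exact ih y

theorem Tn_mul_left (s c : ℝ) (t : ℕ) (f : Z2 → ℝ) (z : Z2) :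
    Tn s t (fun y => c * f y) z = c * Tn s t f z := by
  induction t generalizing z with
  | zero => rfl
  | succ t ih =>
    rw [Tn_succ, Tn_succ, ← T2_mul_left]
    congr 1
    funext y
    exact ih y

theorem i0_nonneg (y : Z2) : 0 ≤ i0 y := by
  unfold i0; split_ifs <;> norm_num

theorem q_nonneg (n : ℕ) (z : Z2) : 0 ≤ q n z := Qn_nonneg i0_nonneg z

theorem q_succ (n : ℕ) (z : Z2) : q (n + 1) z = Q (q n) z := rfl

theorem T2_one (s : ℝ) (z : Z2) : T2 s (fun _ => 1) z = 1 + s * q 1 z := by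
  rw [T2_eq, Q_const]; ring

theorem Kf_zero (s : ℝ) (z : Z2) : Kf s 0 z = 0 := by
  unfold Kf; rw [Tn_zero]; ring

theorem kk_zero (s : ℝ) (z : Z2) : kk s 0 z = 0 := by
  unfold kk; simp

theorem kk_succ (s : ℝ) (t : ℕ) (z : Z2) : kk s (t + 1) z = Tn s t (fun y => s * q 1 y) z := by
  unfold kk Kf
  rw [Nat.add_sub_cancel, Tn_succ']
  have h : T2 s (fun _ => 1) = fun y => (fun _ => (1 : ℝ)) y + (fun y => s * q 1 y) y := by
    funext y
    rw [T2_one]
  rw [h, Tn_add]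
  ring

theorem Tn_nonneg {s : ℝ} (hs : 0 ≤ s) {t : ℕ} {f : Z2 → ℝ} (h : ∀ y, 0 ≤ f y) (z : Z2) :
    0 ≤ Tn s t f z := by
  induction t generalizing z with
  | zero => exact h z
  | succ t ih =>
    rw [Tn_succ, T2_eq]
    have h1 : 0 ≤ Q (Tn s t f) z := by
      have := Q_mono (f := fun _ => 0) (g := Tn s t f) ih z
      rwa [Q_const] at this
    have h2 := mul_nonneg (mul_nonneg hs (ih 0)) (q_nonneg 1 z)
    linarith

theorem kk_nonneg {s : ℝ} (hs : 0 ≤ s) (m : ℕ) (z : Z2) : 0 ≤ kk s m z := by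
  cases m with
  | zero => rw [kk_zero]
  | succ m =>
    rw [kk_succ]
    exact Tn_nonneg hs (fun y => mul_nonneg hs (q_nonneg 1 y)) z

theorem Kf_succ (s : ℝ) (t : ℕ) (z : Z2) : Kf s (t + 1) z = Kf s t z + kk s (t + 1) z := by
  unfold kk
  rw [Nat.add_sub_cancel]
  ring

theorem Kf_sum (s : ℝ) (t : ℕ) (z : Z2) : Kf s t z = ∑ m ∈ Icc 1 t, kk s m z := by
  induction t with
  | zero => rw [Kf_zero]; simp
  | succ t ih => rw [Kf_succ, ih, Finset.sum_Icc_succ_top (by omega)]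

theorem Kf_nonneg {s : ℝ} (hs : 0 ≤ s) (t : ℕ) (z : Z2) : 0 ≤ Kf s t z := by
  rw [Kf_sum]
  exact Finset.sum_nonneg fun m _ => kk_nonneg hs m z

theorem Kf_mono {s : ℝ} (hs : 0 ≤ s) {t t' : ℕ} (h : t ≤ t') (z : Z2) : Kf s t z ≤ Kf s t' z := by
  rw [Kf_sum, Kf_sum]
  apply Finset.sum_le_sum_of_subset_of_nonneg
  · exact Finset.Icc_subset_Icc le_rfl h
  · intro m _ _
    exact kk_nonneg hs m z

/-- decomposition with respect to the last meeting -/
theorem Tn_eq (s : ℝ) (t : ℕ) (ψ : Z2 → ℝ) (z : Z2) :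
    Tn s t ψ z = Qn t ψ z + ∑ m ∈ Icc 1 t, kk s m z * Qn (t - m) ψ 0 := by
  induction t generalizing ψ with
  | zero => simp [Tn_zero, Qn]
  | succ t ih =>
    rw [Tn_succ']
    have h : T2 s ψ = fun y => Q ψ y + ψ 0 * (s * q 1 y) := by
      funext y
      rw [T2_eq]; ring
    rw [h, Tn_add, Tn_mul_left, ← kk_succ, ih, Finset.sum_Icc_succ_top (by omega), Nat.sub_self]
    have h1 : Qn t (Q ψ) z = Qn (t + 1) ψ z := by
      rw [← Q_Qn]; rfl
    have h2 : ∑ m ∈ Icc 1 t, kk s m z * Qn (t - m) (fun y => Q ψ y) 0 =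
        ∑ m ∈ Icc 1 t, kk s m z * Qn (t + 1 - m) ψ 0 := by
      apply Finset.sum_congr rfl
      intro m hm
      rw [Finset.mem_Icc] at hm
      rw [show t + 1 - m = (t - m) + 1 by omega]
      congr 1
      show Qn (t - m) (Q ψ) 0 = _
      rw [← Q_Qn]; rfl
    rw [h2]
    have h3 : Qn t (fun y => Q ψ y) z = Qn (t + 1) ψ z := h1
    rw [h3]
    show _ = _ + (_ + kk s (t + 1) z * ψ 0)
    ring

theorem sum_Icc_shift (f : ℕ → ℝ) (t : ℕ) :
    ∑ n ∈ Icc 1 (t + 1), f n = f 1 + ∑ n ∈ Icc 1 t, f (n + 1) := by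
  induction t with
  | zero => simp
  | succ t ih =>
    rw [Finset.sum_Icc_succ_top (by omega), ih, Finset.sum_Icc_succ_top (by omega : 1 ≤ t + 1)]
    ring

/-- decomposition with respect to the first meeting -/
theorem Kf_eq (s : ℝ) (t : ℕ) (z : Z2) :
    Kf s t z = s * ∑ n ∈ Icc 1 t, q n z * (1 + Kf s (t - n) 0) := by
  induction t generalizing z with
  | zero => rw [Kf_zero]; simp
  | succ t ih =>
    have h0 : Kf s (t + 1) z = Q (Tn s t (fun _ => 1)) z + s * Tn s t (fun _ => 1) 0 * q 1 z - 1 := by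
      unfold Kf
      rw [Tn_succ, T2_eq]
    have h1 : Tn s t (fun _ => (1 : ℝ)) =
        fun y => 1 + s * ∑ n ∈ Icc 1 t, (1 + Kf s (t - n) 0) * q n y := by
      funext y
      have := ih y
      have e : ∑ n ∈ Icc 1 t, (1 + Kf s (t - n) 0) * q n y =
          ∑ n ∈ Icc 1 t, q n y * (1 + Kf s (t - n) 0) := by
        apply Finset.sum_congr rfl
        intro n _
        ring
      rw [e, ← this]
      unfold Kf; ring
    have h1' : Tn s t (fun _ => (1 : ℝ)) 0 = 1 + Kf s t 0 := by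
      unfold Kf; ring
    rw [h0, h1', h1, Q_add, Q_const, Q_mul_left, Q_sum]
    simp only [Q_mul_left]
    rw [sum_Icc_shift]
    have h4 : ∀ n, t + 1 - (n + 1) = t - n := fun n => by omega
    simp only [h4, q_succ]
    rw [Nat.sub_zero]
    have e : ∑ n ∈ Icc 1 t, (1 + Kf s (t - n) 0) * Q (fun y => q n y) z =
          ∑ n ∈ Icc 1 t, Q (q n) z * (1 + Kf s (t - n) 0) := by
        apply Finset.sum_congr rfl
        intro n _
        ring
    rw [e]
    ring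

theorem Qs_nonneg (t : ℕ) (z : Z2) : 0 ≤ Qs t z := Finset.sum_nonneg fun n _ => q_nonneg n z

theorem Qs_mono {t t' : ℕ} (h : t ≤ t') (z : Z2) : Qs t z ≤ Qs t' z := by
  unfold Qs
  apply Finset.sum_le_sum_of_subset_of_nonneg
  · exact Finset.Icc_subset_Icc le_rfl h
  · intro m _ _
    exact q_nonneg m z

theorem R_nonneg (t : ℕ) : 0 ≤ R t := Qs_nonneg t 0

theorem R_mono {t t' : ℕ} (h : t ≤ t') : R t ≤ R t' := Qs_mono h 0

theorem Kf_le_aux {s : ℝ} (hs : 0 ≤ s) (t : ℕ) (z : Z2) :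
    Kf s t z ≤ s * (1 + Kf s t 0) * Qs t z := by
  rw [Kf_eq s t z, mul_assoc]
  apply mul_le_mul_of_nonneg_left _ hs
  unfold Qs
  rw [Finset.mul_sum]
  apply Finset.sum_le_sum
  intro n _
  rw [mul_comm]
  apply mul_le_mul_of_nonneg_right _ (q_nonneg n z)
  have := Kf_mono hs (Nat.sub_le t n) 0
  linarith

theorem Kf_zero_le {s : ℝ} (hs : 0 ≤ s) {t : ℕ} (h : s * R t < 1) : 1 + Kf s t 0 ≤ 1 / (1 - s * R t) := by
  have h1 := Kf_le_aux hs t 0
  have h2 : Qs t 0 = R t := rfl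
  rw [h2] at h1
  rw [le_div_iff₀ (by linarith)]
  nlinarith

theorem Kf_le {s : ℝ} (hs : 0 ≤ s) {t : ℕ} (h : s * R t < 1) (z : Z2) :
    Kf s t z ≤ s / (1 - s * R t) * Qs t z := by
  refine (Kf_le_aux hs t z).trans ?_
  apply mul_le_mul_of_nonneg_right _ (Qs_nonneg t z)
  rw [div_eq_mul_one_div]
  exact mul_le_mul_of_nonneg_left (Kf_zero_le hs h) hs

/-- first meeting decomposition for the increments -/
theorem kk_eq (s : ℝ) (m : ℕ) (z : Z2) :
    kk s (m + 1) z = s * q (m + 1) z + s * ∑ n ∈ Icc 1 m, q n z * kk s (m + 1 - n) 0 := by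
  unfold kk
  rw [Nat.add_sub_cancel, Kf_eq s (m + 1) z, Kf_eq s m z, Finset.sum_Icc_succ_top (by omega),
    Nat.sub_self, Kf_zero, add_zero, mul_one, mul_add, add_comm, add_sub_assoc, ← mul_sub,
    ← Finset.sum_sub_distrib]
  congr 2
  apply Finset.sum_congr rfl
  intro n hn
  rw [Finset.mem_Icc] at hn
  rw [show m + 1 - n - 1 = m - n by omega]
  ring

end Pool.Agent.Helper76.QC
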