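import Pool.Agent.Helper97.QC.Base
import Pool.Agent.Helper17.QC.K1
import Pool.Agent.Helper17.QC.K2
import Pool.Agent.Helper31.QC.K3

set_option autoImplicit false

open MeasureTheory ProbabilityTheory Filter Finset Topology

namespace Pool.Agent.Helper76.QC

open Pool.Agent.Helper97.CP Pool.Agent.Helper97.QC

theorem q_zero_bounds {n : ℕ} (hn : 1 ≤ n) : 1 / (4 * (n : ℝ)) ≤ q n 0 ∧ q n 0 ≤ 1 / (2 * (n : ℝ) + 1) :=
  Pool.Agent.Helper17.QC.q_zero_bounds hn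

theorem q_le {n : ℕ} (hn : 1 ≤ n) (z : Z2) : q n z ≤ 16 / ((n : ℝ) + nsq z) :=
  Pool.Agent.Helper17.QC.q_le hn z

theorem Qs_approx : ∃ C : ℝ, 0 < C ∧ ∀ (M L : ℕ) (z : Z2), 1 ≤ M → 2 * M ≤ L → Even (z 0 + z 1) →
    |Qs (L - M) z - (R L - R M)| ≤ C * (1 + |Real.log ((1 + nsq z) / M)|) :=
  Pool.Agent.Helper17.QC.Qs_approx

theorem A_rho_le : ∃ C : ℝ, 0 < C ∧ ∀ (α B : ℝ) (m : ℕ) (x v : Z2), 0 < α → α ≤ 1 / 2 → 0 < B →
    A m (fun y => (B / (1 + nsq (y - v))) ^ α) x ≤ C * (B / (1 + m)) ^ α :=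
  Pool.Agent.Helper31.QC.A_rho_le

end Pool.Agent.Helper76.QC
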