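import Pool.Agent.Helper76.QC.D1
import Pool.Agent.Helper76.QC.Stub

set_option autoImplicit false

open MeasureTheory ProbabilityTheory Filter Finset Topology

namespace Pool.Agent.Helper76.QC

open Pool.Agent.Helper97.CP Pool.Agent.Helper97.QC

theorem nsq_nonneg (z : Z2) : 0 ≤ nsq z := Finset.sum_nonneg fun i _ => sq_nonneg _

theorem sum_reflect (f : ℕ → ℝ) (m : ℕ) : ∑ n ∈ Icc 1 m, f (m + 1 - n) = ∑ n ∈ Icc 1 m, f n := by
  apply Finset.sum_nbij' (fun n => m + 1 - n) (fun n => m + 1 - n)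
  · intro n hn; rw [Finset.mem_Icc] at hn ⊢; omega
  · intro n hn; rw [Finset.mem_Icc] at hn ⊢; omega
  · intro n hn; rw [Finset.mem_Icc] at hn; omega
  · intro n hn; rw [Finset.mem_Icc] at hn; omega
  · intro n _; rfl

theorem kk_step {s A S : ℝ} (hs : 0 ≤ s) (z : Z2) (m : ℕ) (hA : ∀ n : ℕ, 1 ≤ n → n * q n z ≤ A)
    (hS : ∀ j : ℕ, 1 ≤ j → j ≤ m → j * kk s j 0 ≤ S) :
    ((m + 1 : ℕ) : ℝ) * kk s (m + 1) z ≤ A * s * (1 + Kf s m 0) + s * S * Qs m z := by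
  rw [kk_eq]
  have h1 : ((m + 1 : ℕ) : ℝ) * (s * q (m + 1) z) ≤ s * A := by
    have := mul_le_mul_of_nonneg_left (hA (m + 1) (by omega)) hs
    linarith
  have h2 : ((m + 1 : ℕ) : ℝ) * ∑ n ∈ Icc 1 m, q n z * kk s (m + 1 - n) 0 ≤
      ∑ n ∈ Icc 1 m, (A * kk s (m + 1 - n) 0 + S * q n z) := by
    rw [Finset.mul_sum]
    apply Finset.sum_le_sum
    intro n hn
    rw [Finset.mem_Icc] at hn
    have e : ((m + 1 : ℕ) : ℝ) = (n : ℝ) + ((m + 1 - n : ℕ) : ℝ) := by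
      rw [← Nat.cast_add]; congr 1; omega
    rw [e]
    have a1 := mul_le_mul_of_nonneg_right (hA n hn.1) (kk_nonneg hs (m + 1 - n) 0)
    have a2 := mul_le_mul_of_nonneg_left (hS (m + 1 - n) (by omega) (by omega)) (q_nonneg n z)
    nlinarith
  have h3 : ∑ n ∈ Icc 1 m, (A * kk s (m + 1 - n) 0 + S * q n z) = A * Kf s m 0 + S * Qs m z := by
    rw [Finset.sum_add_distrib, ← Finset.mul_sum, ← Finset.mul_sum, sum_reflect (fun j => kk s j 0),
      ← Kf_sum]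
    rfl
  rw [h3] at h2
  have h4 := mul_le_mul_of_nonneg_left h2 hs
  nlinarith

theorem n_q_zero_le {n : ℕ} (hn : 1 ≤ n) : (n : ℝ) * q n 0 ≤ 1 / 2 := by
  have h := (q_zero_bounds hn).2
  have h1 : (0 : ℝ) < 2 * n + 1 := by positivity
  rw [le_div_iff₀ h1] at h
  have := q_nonneg n 0
  nlinarith

theorem n_q_le {n : ℕ} (hn : 1 ≤ n) (z : Z2) : (n : ℝ) * q n z ≤ 16 := by
  have h := q_le hn z
  have h0 := nsq_nonneg z
  have hn' : (1 : ℝ) ≤ n := by exact_mod_cast hn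
  have h1 : (0 : ℝ) < (n : ℝ) + nsq z := by positivity
  rw [le_div_iff₀ h1] at h
  have := mul_nonneg (q_nonneg n z) h0
  nlinarith

theorem kk_zero_le {s : ℝ} (hs : 0 ≤ s) {t m : ℕ} (h : s * R t < 1) (hm : 1 ≤ m) (hmt : m ≤ t) :
    m * kk s m 0 ≤ s / (2 * (1 - s * R t) ^ 2) := by
  induction m using Nat.strong_induction_on with
  | _ m ih =>
    obtain ⟨k, rfl⟩ : ∃ k, m = k + 1 := ⟨m - 1, by omega⟩
    have h1 := kk_step (A := 1 / 2) (S := s / (2 * (1 - s * R t) ^ 2)) hs 0 k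
      (fun n hn => n_q_zero_le hn) (fun j hj hjk => ih j (by omega) hj (by omega))
    refine h1.trans ?_
    have hp : 0 < 1 - s * R t := by linarith
    have h2 : 1 + Kf s k 0 ≤ 1 / (1 - s * R t) :=
      (add_le_add_right (Kf_mono hs (by omega : k ≤ t) 0) 1).trans (Kf_zero_le hs h)
    have h3 : Qs k 0 ≤ R t := R_mono (by omega)
    have h4 : 1 / 2 * s * (1 + Kf s k 0) ≤ 1 / 2 * s * (1 / (1 - s * R t)) :=
      mul_le_mul_of_nonneg_left h2 (by positivity)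
    have h5 : s * (s / (2 * (1 - s * R t) ^ 2)) * Qs k 0 ≤ s * (s / (2 * (1 - s * R t) ^ 2)) * R t :=
      mul_le_mul_of_nonneg_left h3 (by positivity)
    refine (add_le_add h4 h5).trans (le_of_eq ?_)
    field_simp
    ring

/-- pointwise bound -/
theorem kk_le : ∃ C : ℝ, 0 < C ∧ ∀ (s : ℝ) (t m : ℕ) (z : Z2), 0 < s → s * R t < 1 → 1 ≤ m → m ≤ t →
    m * kk s m z ≤ C * (s / (1 - s * R t)) * (1 + s / (1 - s * R t) * Qs t z) := by
  refine ⟨16, by norm_num, ?_⟩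
  intro s t m z hs h hm hmt
  obtain ⟨k, rfl⟩ : ∃ k, m = k + 1 := ⟨m - 1, by omega⟩
  have h1 := kk_step (A := 16) (S := s / (2 * (1 - s * R t) ^ 2)) hs.le z k
    (fun n hn => n_q_le hn z) (fun j hj hjk => kk_zero_le hs.le h hj (by omega))
  refine h1.trans ?_
  have hp : 0 < 1 - s * R t := by linarith
  have h2 : 1 + Kf s k 0 ≤ 1 / (1 - s * R t) :=
    (add_le_add_right (Kf_mono hs.le (by omega : k ≤ t) 0) 1).trans (Kf_zero_le hs.le h)
  have h3 : Qs k z ≤ Qs t z := Qs_mono (by omega) z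
  have h4 : 16 * s * (1 + Kf s k 0) ≤ 16 * s * (1 / (1 - s * R t)) :=
    mul_le_mul_of_nonneg_left h2 (by positivity)
  have h5 : s * (s / (2 * (1 - s * R t) ^ 2)) * Qs k z ≤ 16 * (s * (s / (1 - s * R t) ^ 2)) * Qs t z := by
    refine (mul_le_mul_of_nonneg_left h3 (by positivity)).trans ?_
    apply mul_le_mul_of_nonneg_right _ (Qs_nonneg t z)
    have : s / (2 * (1 - s * R t) ^ 2) ≤ 16 * (s / (1 - s * R t) ^ 2) := by
      have e : s / (2 * (1 - s * R t) ^ 2) = 1 / 2 * (s / (1 - s * R t) ^ 2) := by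
        field_simp
      rw [e]
      have : 0 ≤ s / (1 - s * R t) ^ 2 := by positivity
      linarith
    have := mul_le_mul_of_nonneg_left this hs.le
    linarith
  refine (add_le_add h4 h5).trans (le_of_eq ?_)
  field_simp

end Pool.Agent.Helper76.QC
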