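import Pool.Agent.Helper76.QC.D2

set_option autoImplicit false

open MeasureTheory ProbabilityTheory Filter Finset Topology

namespace Pool.Agent.Helper76.QC

open Pool.Agent.Helper97.CP Pool.Agent.Helper97.QC

theorem sum_Icc_sub_le (f : ℕ → ℝ) (B : ℝ) (u t : ℕ) (hut : u ≤ t)
    (h : ∀ n, u < n → n ≤ t → f n ≤ B) :
    ∑ n ∈ Icc 1 t, f n - ∑ n ∈ Icc 1 u, f n ≤ ((t : ℝ) - u) * B := by
  induction t, hut using Nat.le_induction with
  | base => simp
  | succ t hut ih =>
    rw [Finset.sum_Icc_succ_top (by omega)]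
    have h1 := ih (fun n hn hnt => h n hn (by omega))
    have h2 := h (t + 1) (by omega) le_rfl
    push_cast
    nlinarith

theorem g_lower {s : ℝ} {t h : ℕ} (hs : 0 < s) (h1 : s * R t < 1) (hδ : s / (1 - s * R t) ≤ 1)
    (hh : 1 ≤ h) (hht : h ≤ t) :
    1 - 2 * (s / (1 - s * R t)) ≤ (1 + Kf s h 0) * (1 - s * R h) := by
  have hp : 0 < 1 - s * R t := by linarith
  set G := 1 / (1 - s * R t) with hG
  set S := s / (2 * (1 - s * R t) ^ 2) with hS
  have hG0 : 0 < G := by positivity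
  have hS0 : 0 < S := by positivity
  have hK : ∀ j ≤ t, Kf s j 0 ≤ G := by
    intro j hj
    have := (add_le_add_right (Kf_mono hs.le hj 0) 1).trans (Kf_zero_le hs.le h1)
    linarith
  have hhR : (1 : ℝ) ≤ h := by exact_mod_cast hh
  have hE : ∀ n ∈ Icc 1 h, q n 0 * (Kf s h 0 - Kf s (h - n) 0) ≤ (S + G) / h := by
    intro n hn
    rw [Finset.mem_Icc] at hn
    have hn1 : (1 : ℝ) ≤ n := by exact_mod_cast hn.1
    rw [le_div_iff₀ (by linarith)]
    rcases le_or_gt (2 * n) h with h2 | h2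
    · -- short
      have e : Kf s h 0 - Kf s (h - n) 0 ≤ n * (2 * S / h) := by
        rw [Kf_sum, Kf_sum]
        have := sum_Icc_sub_le (fun m => kk s m 0) (2 * S / h) (h - n) h (by omega) (by
          intro m hm hmh
          have a := kk_zero_le hs.le h1 (by omega : 1 ≤ m) (by omega : m ≤ t)
          have b : (h : ℝ) ≤ 2 * m := by exact_mod_cast (by omega : h ≤ 2 * m)
          have c := kk_nonneg hs.le m 0
          rw [le_div_iff₀ (by linarith)]
          nlinarith)
        have e2 : (h : ℝ) - ((h - n : ℕ) : ℝ) = n := by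
          rw [Nat.cast_sub hn.2]; ring
        rw [e2] at this
        exact this
      have f1 := n_q_zero_le hn.1
      have f2 := q_nonneg n 0
      have f3 : q n 0 * (Kf s h 0 - Kf s (h - n) 0) ≤ q n 0 * (n * (2 * S / h)) :=
        mul_le_mul_of_nonneg_left e f2
      have f4 : q n 0 * (n * (2 * S / h)) * h = (n * q n 0) * (2 * S) := by
        field_simp
      have f5 : (n * q n 0) * (2 * S) ≤ 1 / 2 * (2 * S) := mul_le_mul_of_nonneg_right f1 (by positivity)
      have f6 := mul_le_mul_of_nonneg_right f3 (by linarith : (0 : ℝ) ≤ h)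
      linarith
    · have e : Kf s h 0 - Kf s (h - n) 0 ≤ G := by
        have := hK h hht
        have := Kf_nonneg hs.le (h - n) 0
        linarith
      have f1 := (q_zero_bounds hn.1).2
      have f2 := q_nonneg n 0
      have f3 : q n 0 * (Kf s h 0 - Kf s (h - n) 0) ≤ q n 0 * G :=
        mul_le_mul_of_nonneg_left e f2
      have f4 : q n 0 * h ≤ 1 := by
        rw [le_div_iff₀ (by positivity)] at f1
        have b : (h : ℝ) ≤ 2 * n + 1 := by exact_mod_cast (by omega : h ≤ 2 * n + 1)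
        nlinarith
      have f6 := mul_le_mul_of_nonneg_right f3 (by linarith : (0 : ℝ) ≤ h)
      have f7 := mul_le_mul_of_nonneg_right f4 hG0.le
      nlinarith
  have hsum : ∑ n ∈ Icc 1 h, q n 0 * (Kf s h 0 - Kf s (h - n) 0) ≤ S + G := by
    refine (Finset.sum_le_sum hE).trans (le_of_eq ?_)
    rw [Finset.sum_const, Nat.card_Icc, nsmul_eq_mul, Nat.add_sub_cancel]
    field_simp
  have hKh := Kf_eq s h 0
  have e1 : ∑ n ∈ Icc 1 h, q n 0 * (1 + Kf s (h - n) 0) =
      (1 + Kf s h 0) * R h - ∑ n ∈ Icc 1 h, q n 0 * (Kf s h 0 - Kf s (h - n) 0) := by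
    unfold R Qs
    rw [Finset.mul_sum, ← Finset.sum_sub_distrib]
    apply Finset.sum_congr rfl
    intro n _
    ring
  rw [e1] at hKh
  have e2 : s * (S + G) ≤ 2 * (s / (1 - s * R t)) := by
    have a : s * S = 1 / 2 * (s / (1 - s * R t)) * (s / (1 - s * R t)) := by
      rw [hS]; field_simp
    have b : s * G = s / (1 - s * R t) := by
      rw [hG]; field_simp
    have c : 0 < s / (1 - s * R t) := by positivity
    rw [mul_add, a, b]
    nlinarith
  have e3 := mul_le_mul_of_nonneg_left hsum hs.le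
  nlinarith

theorem Kf_ge {s : ℝ} (hs : 0 ≤ s) (a h : ℕ) (z : Z2) :
    s * (1 + Kf s h 0) * Qs a z ≤ Kf s (a + h) z := by
  rw [Kf_eq s (a + h) z, mul_assoc]
  apply mul_le_mul_of_nonneg_left _ hs
  have h1 : ∑ n ∈ Icc 1 a, q n z * (1 + Kf s (a + h - n) 0) ≤
      ∑ n ∈ Icc 1 (a + h), q n z * (1 + Kf s (a + h - n) 0) := by
    apply Finset.sum_le_sum_of_subset_of_nonneg
    · exact Finset.Icc_subset_Icc le_rfl (by omega)
    · intro m _ _
      have := Kf_nonneg hs (a + h - m) 0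
      have := q_nonneg m z
      positivity
  refine le_trans ?_ h1
  unfold Qs
  rw [Finset.mul_sum]
  apply Finset.sum_le_sum
  intro n hn
  rw [Finset.mem_Icc] at hn
  rw [mul_comm]
  apply mul_le_mul_of_nonneg_left _ (q_nonneg n z)
  have := Kf_mono hs (by omega : h ≤ a + h - n) 0
  linarith

theorem Kf_approx : ∃ C : ℝ, 0 < C ∧ ∀ (s : ℝ) (M L : ℕ) (z : Z2), 0 < s → s * R L < 1 →
    s / (1 - s * R L) ≤ 1 → 1 ≤ M → 16 * M ≤ L → Even (z 0 + z 1) →
    |Kf s (L - M) z - s / (1 - s * R L) * (R L - R M)| ≤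
      C * (s / (1 - s * R L)) * (1 + |Real.log ((1 + nsq z) / M)|) +
      C * (s / (1 - s * R L)) ^ 2 * (R L - R M) := by
  obtain ⟨C0, hC0, hQ⟩ := Qs_approx
  refine ⟨4 * C0 + 19, by positivity, ?_⟩
  intro s M L z hs hL hδ hM hML hz
  have hp : 0 < 1 - s * R L := by linarith
  have hQ' := hQ M L z hM (by omega) hz
  set ℓ := |Real.log ((1 + nsq z) / M)| with hℓ
  have hℓ0 : 0 ≤ ℓ := abs_nonneg _
  set δ := s / (1 - s * R L) with hd
  have hδ0 : 0 < δ := by positivity
  have hR0 : 0 ≤ R L - R M := by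
    have := R_mono (by omega : M ≤ L)
    linarith
  rw [abs_le] at hQ' ⊢
  obtain ⟨hq1, hq2⟩ := hQ'
  have hT : L - M ≤ L := Nat.sub_le _ _
  have hLM : s * R (L - M) < 1 := by
    have := mul_le_mul_of_nonneg_left (R_mono hT) hs.le
    linarith
  -- upper bound
  have hup : Kf s (L - M) z ≤ δ * Qs (L - M) z := by
    refine (Kf_le hs.le hLM z).trans ?_
    apply mul_le_mul_of_nonneg_right _ (Qs_nonneg _ z)
    have := mul_le_mul_of_nonneg_left (R_mono hT) hs.le
    exact div_le_div_of_nonneg_left hs.le hp (by linarith)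
  -- lower bound
  obtain ⟨a, h, hah, hha, hah2⟩ : ∃ a h : ℕ, L - M = a + h ∧ h ≤ a ∧ a ≤ h + 1 :=
    ⟨(L - M) - (L - M) / 2, (L - M) / 2, by omega, by omega, by omega⟩
  have hh1 : 1 ≤ h := by omega
  have hg := g_lower (t := L) (h := h) hs hL hδ hh1 (by omega)
  have hR1 : R L - R h ≤ 1 := by
    have := sum_Icc_sub_le (fun n => q n 0) (1 / (2 * (h : ℝ) + 3)) h L (by omega) (by
      intro n hn hnL
      refine (q_zero_bounds (by omega)).2.trans ?_
      apply one_div_le_one_div_of_le (by positivity)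
      have : (h : ℝ) + 1 ≤ n := by exact_mod_cast hn
      linarith)
    have e : ((L : ℝ) - h) * (1 / (2 * (h : ℝ) + 3)) ≤ 1 := by
      rw [mul_one_div, div_le_one (by positivity)]
      have : (L : ℝ) ≤ 3 * h + 3 := by exact_mod_cast (by omega : L ≤ 3 * h + 3)
      linarith
    exact this.trans e
  have hsg : δ * (1 - 3 * δ) ≤ s * (1 + Kf s h 0) := by
    have g0 : 0 ≤ Kf s h 0 := Kf_nonneg hs.le h 0
    have e1 : 1 - s * R h ≤ (1 - s * R L) * (1 + δ) := by
      have : (1 - s * R L) * (1 + δ) = (1 - s * R L) + s := by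
        rw [hd]; field_simp
      rw [this]
      nlinarith
    have e2 : 1 - 2 * δ ≤ (1 + Kf s h 0) * ((1 - s * R L) * (1 + δ)) :=
      hg.trans (mul_le_mul_of_nonneg_left e1 (by linarith))
    have e3 : δ * (1 - 2 * δ) ≤ s * (1 + Kf s h 0) * (1 + δ) := by
      have := mul_le_mul_of_nonneg_left e2 hδ0.le
      have e4 : δ * ((1 + Kf s h 0) * ((1 - s * R L) * (1 + δ))) = s * (1 + Kf s h 0) * (1 + δ) := by
        rw [hd]; field_simp
      linarith
    have e5 : δ * (1 - 3 * δ) * (1 + δ) ≤ s * (1 + Kf s h 0) * (1 + δ) := by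
      refine le_trans ?_ e3
      nlinarith [mul_pos hδ0 hδ0, mul_pos (mul_pos hδ0 hδ0) hδ0]
    exact le_of_mul_le_mul_right e5 (by linarith)
  have hlow := Kf_ge hs.le a h z
  rw [← hah] at hlow
  have hQa : Qs (L - M) z - Qs a z ≤ 16 := by
    have := sum_Icc_sub_le (fun n => q n z) (16 / ((a : ℝ) + 1)) a (L - M) (by omega) (by
      intro n hn hnL
      have hn1 : (a : ℝ) + 1 ≤ n := by exact_mod_cast hn
      have h0 := nsq_nonneg z
      refine (q_le (by omega) z).trans ?_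
      apply div_le_div_of_nonneg_left (by norm_num) (by positivity) (by linarith))
    have e : (((L - M : ℕ) : ℝ) - a) * (16 / ((a : ℝ) + 1)) ≤ 16 := by
      rw [hah, mul_div_assoc', div_le_iff₀ (by positivity)]
      have : (h : ℝ) ≤ a := by exact_mod_cast hha
      push_cast
      nlinarith
    exact this.trans e
  have hQam : Qs a z ≤ Qs (L - M) z := Qs_mono (by omega) z
  have hQa0 := Qs_nonneg a z
  have hl2 : δ * (1 - 3 * δ) * Qs a z ≤ Kf s (L - M) z :=
    (mul_le_mul_of_nonneg_right hsg hQa0).trans hlow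
  have hδδ : δ ^ 2 ≤ δ := by nlinarith
  constructor
  · -- lower
    have a1 : δ * (Qs (L - M) z - 16) ≤ δ * Qs a z := mul_le_mul_of_nonneg_left (by linarith) hδ0.le
    have a2 : 3 * δ ^ 2 * Qs a z ≤ 3 * δ ^ 2 * ((R L - R M) + C0 * (1 + ℓ)) :=
      mul_le_mul_of_nonneg_left (by linarith) (by positivity)
    have a3 : 3 * δ ^ 2 * (C0 * (1 + ℓ)) ≤ 3 * δ * (C0 * (1 + ℓ)) :=
      mul_le_mul_of_nonneg_right (by linarith) (by positivity)
    have a4 : δ * (-(C0 * (1 + ℓ))) ≤ δ * (Qs (L - M) z - (R L - R M)) :=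
      mul_le_mul_of_nonneg_left hq1 hδ0.le
    have a5 : δ * 16 ≤ δ * (16 * (1 + ℓ)) := mul_le_mul_of_nonneg_left (by linarith) hδ0.le
    have a6 : 0 ≤ δ * (3 * (1 + ℓ)) := by positivity
    have a7 : 0 ≤ δ ^ 2 * ((4 * C0 + 16) * (R L - R M)) := by positivity
    nlinarith
  · have a1 : δ * (Qs (L - M) z - (R L - R M)) ≤ δ * (C0 * (1 + ℓ)) :=
      mul_le_mul_of_nonneg_left hq2 hδ0.le
    have a6 : 0 ≤ δ * ((3 * C0 + 19) * (1 + ℓ)) := by positivity
    have a7 : 0 ≤ δ ^ 2 * ((4 * C0 + 19) * (R L - R M)) := by positivity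
    nlinarith

end Pool.Agent.Helper76.QC
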